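import Mathlib
import Pool.Agent.FaceContents.Main

/-!
# Ratios of face contents of convex polytopes are bounded

For `1 ≤ j < i ≤ d` the supremum `c(d,i,j)` of `V_i(P)^(1/i) / V_j(P)^(1/j)` over all
`d`-polytopes `P` is at most the product of `k^(1/(k-1))` over `j < k ≤ i`; in particular it is
finite.
-/

namespace Pool.Agent.Results.MP_c4c3e2_gt.FaceContentRatio

open Module MeasureTheory MeasureTheory.Measure
open scoped ENNReal

/-- Euclidean `d`-space. -/
abbrev Space (d : ℕ) : Type := EuclideanSpace ℝ (Fin d)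

/-- `P` is a `d`-polytope: the convex hull of finitely many points of `ℝ^d`, of dimension `d`
(nonempty interior). -/
def IsPolytope (d : ℕ) (P : Set (Space d)) : Prop :=
  (∃ S : Finset (Space d), P = convexHull ℝ (S : Set (Space d))) ∧ (interior P).Nonempty

/-- `F` is a `k`-dimensional face of `P`: a nonempty set of the form
`{x ∈ P | ∀ y ∈ P, l y ≤ l x}` for a linear functional `l` (the zero functional gives `P` itself),
of affine dimension `k`. -/
def IsFace {d : ℕ} (P F : Set (Space d)) (k : ℕ) : Prop :=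
  F.Nonempty ∧ IsExposed ℝ P F ∧ finrank ℝ (vectorSpan ℝ F) = k

/-- The sum of the `k`-dimensional volumes of the `k`-dimensional faces of `P`; the
`k`-dimensional volume `μHE[k]` is Hausdorff measure, normalised so that it is Lebesgue measure on
`ℝ^k`. -/
noncomputable def V {d : ℕ} (k : ℕ) (P : Set (Space d)) : ℝ≥0∞ :=
  ∑' F : {F : Set (Space d) // IsFace P F k}, μHE[k] (F : Set (Space d))

/-- The supremum of `V_i(P)^(1/i) / V_j(P)^(1/j)` over all `d`-polytopes `P`. -/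
noncomputable def c (d i j : ℕ) : ℝ≥0∞ :=
  ⨆ (P : Set (Space d)) (_ : IsPolytope d P),
    (V i P) ^ (1 / (i : ℝ)) / (V j P) ^ (1 / (j : ℝ))

lemma V_eq {d : ℕ} (S : Finset (Space d)) (k : ℕ) :
    V k (convexHull ℝ (S : Set (Space d))) =
      ∑ F ∈ FaceContents.facesFin S k, μHE[k] F := by
  have h : ∀ F : Set (Space d), IsFace (convexHull ℝ (S : Set (Space d))) F k ↔
      F ∈ FaceContents.facesFin S k := by
    intro F
    rw [FaceContents.mem_facesFin, IsFace, FaceContents.Face, and_assoc]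
  unfold V
  rw [← Finset.tsum_subtype (FaceContents.facesFin S k) (fun F => μHE[k] F)]
  exact (Equiv.subtypeEquivRight h).tsum_eq
    (fun F : {F // F ∈ FaceContents.facesFin S k} => μHE[k] (F : Set (Space d)))

lemma step {d : ℕ} (S : Finset (Space d)) (m : ℕ) (hm : 1 ≤ m) :
    (V (m + 1) (convexHull ℝ (S : Set (Space d)))) ^ (1 / ((m + 1 : ℕ) : ℝ)) ≤
      ENNReal.ofReal (((m + 1 : ℕ) : ℝ) ^ (1 / (((m + 1 : ℕ) : ℝ) - 1))) *
        (V m (convexHull ℝ (S : Set (Space d)))) ^ (1 / (m : ℝ)) := by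
  have h := FaceContents.sum_pow_le S m hm
  rw [← V_eq, ← V_eq] at h
  set A := V (m + 1) (convexHull ℝ (S : Set (Space d)))
  set B := V m (convexHull ℝ (S : Set (Space d)))
  have hm0 : (m : ℝ) ≠ 0 := by positivity
  have hm1 : ((m + 1 : ℕ) : ℝ) ≠ 0 := by positivity
  have h1 : (A ^ m) ^ (1 / ((m : ℝ) * ((m + 1 : ℕ) : ℝ))) ≤
      ((((m + 1 : ℕ) : ℝ≥0∞) * B) ^ (m + 1)) ^ (1 / ((m : ℝ) * ((m + 1 : ℕ) : ℝ))) :=
    ENNReal.rpow_le_rpow h (by positivity)
  rw [← ENNReal.rpow_natCast, ← ENNReal.rpow_natCast, ← ENNReal.rpow_mul, ← ENNReal.rpow_mul] at h1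
  have e1 : (m : ℝ) * (1 / ((m : ℝ) * ((m + 1 : ℕ) : ℝ))) = 1 / ((m + 1 : ℕ) : ℝ) := by
    field_simp
  have e2 : ((m + 1 : ℕ) : ℝ) * (1 / ((m : ℝ) * ((m + 1 : ℕ) : ℝ))) = 1 / (m : ℝ) := by
    field_simp
  rw [e1, e2, ENNReal.mul_rpow_of_nonneg _ _ (by positivity)] at h1
  refine h1.trans (le_of_eq ?_)
  congr 1
  have e3 : ((m + 1 : ℕ) : ℝ) - 1 = m := by push_cast; ring
  rw [e3, ← ENNReal.ofReal_rpow_of_pos (by positivity), ENNReal.ofReal_natCast]

lemma chain {d : ℕ} (S : Finset (Space d)) (j : ℕ) (hj : 1 ≤ j) (i : ℕ) (hij : j ≤ i) :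
    (V i (convexHull ℝ (S : Set (Space d)))) ^ (1 / (i : ℝ)) ≤
      ENNReal.ofReal (∏ k ∈ Finset.Ioc j i, (k : ℝ) ^ (1 / ((k : ℝ) - 1))) *
        (V j (convexHull ℝ (S : Set (Space d)))) ^ (1 / (j : ℝ)) := by
  induction i, hij using Nat.le_induction with
  | base => simp
  | succ i hi ih =>
    rw [← Finset.insert_Ioc_right_eq_Ioc_add_one (by omega), Finset.prod_insert (by simp),
      ENNReal.ofReal_mul (by positivity), mul_assoc]
    exact (step S i (by omega)).trans (by gcongr)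

/-- For all `1 ≤ j < i` (in particular for `1 ≤ j < i ≤ d`) the supremum `c(d,i,j)` is at most the
product of `k^(1/(k-1))` over `j < k ≤ i`; in particular it is finite. -/
theorem result (d i j : ℕ) (hj : 1 ≤ j) (hij : j < i) :
    c d i j ≤ ENNReal.ofReal (∏ k ∈ Finset.Ioc j i, (k : ℝ) ^ (1 / ((k : ℝ) - 1))) := by
  unfold c
  refine iSup₂_le fun P hP => ?_
  obtain ⟨⟨S, rfl⟩, -⟩ := hP
  exact ENNReal.div_le_of_le_mul (chain S j hj i hij.le)

end Pool.Agent.Results.MP_c4c3e2_gt.FaceContentRatio
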